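import Pool.Agent.E8helper61.EF.Stm3

/-! Project EF, piece BB. -/

set_option autoImplicit false

open Finset

namespace Pool.Agent.E8helper71.EF

open Pool.Agent.E8helper61.EF

theorem bbT : BbStatement := by
  intro k m d hk
  have e1 : (bb k m d : ℝ) =
      2 ^ d * ∑ s ∈ range (d / k + 1), (m.choose s : ℝ) * (1 / 2 ^ k) ^ s := by
    unfold bb
    push_cast
    rw [Finset.mul_sum]
    refine Finset.sum_congr rfl fun s hs => ?_
    have hs' : s ≤ d / k := by
      have := Finset.mem_range.1 hs
      omega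
    have hks : k * s ≤ d := by
      have h1 := Nat.mul_le_mul_left k hs'
      exact h1.trans (Nat.mul_div_le d k)
    have h2 : (2 : ℝ) ^ d = 2 ^ (d - k * s) * 2 ^ (k * s) := by
      rw [← pow_add, Nat.sub_add_cancel hks]
    rw [h2, one_div, inv_pow, ← pow_mul]
    have h3 : (2 : ℝ) ^ (k * s) ≠ 0 := by positivity
    field_simp
  have e2 : (1 + 1 / 2 ^ k : ℝ) ^ m =
      ∑ s ∈ range (m + 1), (m.choose s : ℝ) * (1 / 2 ^ k) ^ s := by
    rw [add_comm, add_pow]
    refine Finset.sum_congr rfl fun s _ => ?_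
    rw [one_pow, mul_one, mul_comm]
  rw [e1, e2]
  refine mul_le_mul_of_nonneg_left ?_ (by positivity)
  have e3 : ∑ s ∈ range (d / k + 1), (m.choose s : ℝ) * (1 / 2 ^ k) ^ s ≤
      ∑ s ∈ range (max (d / k + 1) (m + 1)), (m.choose s : ℝ) * (1 / 2 ^ k) ^ s := by
    refine Finset.sum_le_sum_of_subset_of_nonneg (Finset.range_subset_range.2 (le_max_left _ _))
      fun s _ _ => by positivity
  refine e3.trans (le_of_eq ?_)
  symm
  refine Finset.sum_subset (Finset.range_subset_range.2 (le_max_right _ _)) fun s _ hs => ?_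
  have hs' : m < s := by
    rw [Finset.mem_range] at hs
    omega
  rw [Nat.choose_eq_zero_of_lt hs', Nat.cast_zero, zero_mul]

end Pool.Agent.E8helper71.EF
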